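import Pool.Agent.L0h86.GQ.Stm

/-!
# Project GQ, module LSQ: the squares in `ℚ_2(i)` modulo `4 (1 + i)`
-/

set_option autoImplicit false
set_option linter.all false

namespace Pool.Agent.L0h68.GQ

open Pool.Agent.Y715.Nr (Au Inert)
open Pool.Agent.Y715.Gi (ev ev_apply ev_le ev_lam lam dvd_iff lam_lt prime_lam norm_lam norm_lam_lt norm_two')
open Pool.Agent.Y715.Two2 (Lf le_lam lam_pos I_mem)

theorem lam5 : lam ^ 5 = ⟨-4, -4⟩ := by decide

theorem odd_of_not_dvd {y : GaussianInt} (hy : ¬ lam ∣ y) : ¬ Even (y.re + y.im) := by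
  rintro ⟨k, hk⟩
  refine hy ⟨⟨k, y.im - k⟩, ?_⟩
  rw [Zsqrtd.ext_iff]
  constructor
  · simp only [lam, Zsqrtd.re_mul]
    omega
  · simp only [lam, Zsqrtd.im_mul]
    omega

/-- the squares of the odd Gaussian integers -/
theorem sq_mod {y : GaussianInt} (hy : ¬ lam ∣ y) : lam ^ 5 ∣ y ^ 2 - 1 ∨ lam ^ 5 ∣ y ^ 2 + 1 := by
  have hodd := odd_of_not_dvd hy
  rw [Int.not_even_iff_odd] at hodd
  obtain ⟨a, b⟩ := y
  simp only at hodd
  rw [lam5]
  rcases Int.even_or_odd a with ha | ha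
  · right
    have hb : Odd b := by
      rcases Int.even_or_odd b with hb | hb
      · exact absurd hodd (Int.not_odd_iff_even.2 (ha.add hb))
      · exact hb
    obtain ⟨m, hm⟩ := ha
    obtain ⟨n, hn⟩ := hb
    obtain ⟨u, hu⟩ := Int.even_mul_succ_self m
    obtain ⟨v, hv⟩ := Int.even_mul_succ_self n
    refine ⟨⟨-(u - v + m * n), -(m * n + m - u + v) ⟩, ?_⟩
    rw [Zsqrtd.ext_iff]
    constructor
    · simp only [pow_two, Zsqrtd.re_add, Zsqrtd.re_mul, Zsqrtd.re_one]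
      subst hm hn
      nlinarith
    · simp only [pow_two, Zsqrtd.im_add, Zsqrtd.im_mul, Zsqrtd.im_one]
      subst hm hn
      nlinarith
  · left
    have hb : Even b := by
      rcases Int.even_or_odd b with hb | hb
      · exact hb
      · exact absurd hodd (Int.not_odd_iff_even.2 (ha.add_odd hb))
    obtain ⟨m, hm⟩ := ha
    obtain ⟨n, hn⟩ := hb
    obtain ⟨u, hu⟩ := Int.even_mul_succ_self m
    obtain ⟨v, hv⟩ := Int.even_mul_succ_self n
    refine ⟨⟨-(u - v + m * n + n), -(m * n - u + v) ⟩, ?_⟩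
    rw [Zsqrtd.ext_iff]
    constructor
    · simp only [pow_two, Zsqrtd.re_sub, Zsqrtd.re_mul, Zsqrtd.re_one]
      subst hm hn
      nlinarith
    · simp only [pow_two, Zsqrtd.im_sub, Zsqrtd.im_mul, Zsqrtd.im_one]
      subst hm hn
      nlinarith

variable {I : PadicAlgCl 2} (hI : I ^ 2 = -1)

include hI

/-- one digit -/
theorem digit {y : PadicAlgCl 2} (hy : ‖y‖ ≤ 1) (h : ∀ τ : Au 2, τ I = I → τ y = y) :
    ∃ (a : ℤ) (y' : PadicAlgCl 2), ‖y'‖ ≤ 1 ∧ (∀ τ : Au 2, τ I = I → τ y' = y') ∧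
      y = a + (1 + I) * y' := by
  have key : ∀ a : ℤ, ‖y - a‖ < 1 → ∃ (a : ℤ) (y' : PadicAlgCl 2), ‖y'‖ ≤ 1 ∧
      (∀ τ : Au 2, τ I = I → τ y' = y') ∧ y = a + (1 + I) * y' := by
    intro a ha
    have h0 : (0 : ℝ) < ‖1 + I‖ := lam_pos hI
    have hne : (1 + I) ≠ 0 := norm_pos_iff.1 h0
    have hmem : y - a ∈ Lf I := fun τ _ hτ => by rw [map_sub, map_intCast, h τ hτ]
    have h1 := le_lam hI hmem ha
    refine ⟨a, (y - a) / (1 + I), ?_, fun τ hτ => ?_, ?_⟩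
    · rw [norm_div]
      exact (div_le_one h0).2 h1
    · rw [map_div₀, map_sub, map_intCast, h τ hτ, map_add, map_one, hτ]
    · rw [mul_div_cancel₀ _ hne]
      ring
  rcases Pool.Agent.Y715.Lc.residue2 hI hy h with h1 | h1
  · exact key 0 (by rw [Int.cast_zero, sub_zero]; exact h1)
  · exact key 1 (by rw [Int.cast_one]; exact h1)

/-- divisibility by powers of `1 + i` -/
theorem pow_dvd (n : ℕ) : ∀ w : GaussianInt, ‖ev I hI w‖ ≤ ‖1 + I‖ ^ n → lam ^ n ∣ w := by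
  induction n with
  | zero => intro w _; rw [pow_zero]; exact one_dvd w
  | succ n ih =>
    intro w hw
    have h0 : (0 : ℝ) < ‖1 + I‖ := lam_pos hI
    have hlt : ‖1 + I‖ < 1 := norm_lam_lt hI
    have h1 : ‖ev I hI w‖ < 1 := lt_of_le_of_lt hw (pow_lt_one₀ h0.le hlt (Nat.succ_ne_zero n))
    obtain ⟨v, rfl⟩ := (dvd_iff hI prime_lam (lam_lt hI) w).2 h1
    rw [map_mul, norm_mul, ev_lam, pow_succ'] at hw
    have h2 := ih v (le_of_mul_le_mul_left hw h0)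
    rw [pow_succ']
    exact mul_dvd_mul_left lam h2

theorem lsq {z : GaussianInt} {s : PadicAlgCl 2} (hs : s ^ 2 = ev I hI z)
    (hfix : ∀ τ : Au 2, τ I = I → τ s = s) (hz : ¬ lam ∣ z) :
    lam ^ 5 ∣ z - 1 ∨ lam ^ 5 ∣ z + 1 := by
  have h0 : (0 : ℝ) < ‖1 + I‖ := lam_pos hI
  have hlt : ‖1 + I‖ < 1 := norm_lam_lt hI
  have hs1 : ‖s‖ ≤ 1 := by
    have h1 : ‖s‖ ^ 2 ≤ 1 := by
      rw [← norm_pow, hs]
      exact ev_le hI z
    exact (pow_le_one_iff_of_nonneg (norm_nonneg _) two_ne_zero).1 h1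
  obtain ⟨a0, s1, hs11, hf1, e1⟩ := digit hI hs1 hfix
  obtain ⟨a1, s2, hs21, hf2, e2⟩ := digit hI hs11 hf1
  obtain ⟨a2, s3, hs31, hf3, e3⟩ := digit hI hs21 hf2
  obtain ⟨y, hy⟩ : ∃ y : GaussianInt, y = (a0 : GaussianInt) + lam * (a1 : GaussianInt) +
      lam ^ 2 * (a2 : GaussianInt) := ⟨_, rfl⟩
  have hev : ev I hI y = a0 + (1 + I) * a1 + (1 + I) ^ 2 * a2 := by
    rw [hy, map_add, map_add, map_mul, map_mul, map_pow, ev_lam, map_intCast, map_intCast,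
      map_intCast]
  have hd : s - ev I hI y = (1 + I) ^ 3 * s3 := by
    rw [hev, e1, e2, e3]
    ring
  have hn1 : ‖s - ev I hI y‖ ≤ ‖1 + I‖ ^ 3 := by
    rw [hd, norm_mul, norm_pow]
    calc ‖1 + I‖ ^ 3 * ‖s3‖ ≤ ‖1 + I‖ ^ 3 * 1 := mul_le_mul_of_nonneg_left hs31 (by positivity)
      _ = ‖1 + I‖ ^ 3 := mul_one _
  have hn2 : ‖s + ev I hI y‖ ≤ ‖1 + I‖ ^ 2 := by
    have e : s + ev I hI y = 2 * s + -(s - ev I hI y) := by ring
    rw [e]
    refine (IsUltrametricDist.norm_add_le_max _ _).trans (max_le ?_ ?_)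
    · rw [norm_mul, norm_two', norm_lam hI]
      calc (2 : ℝ)⁻¹ * ‖s‖ ≤ 2⁻¹ * 1 := mul_le_mul_of_nonneg_left hs1 (by norm_num)
        _ = 2⁻¹ := mul_one _
    · rw [norm_neg]
      exact hn1.trans (pow_le_pow_of_le_one h0.le hlt.le (by norm_num))
  have hdvd : lam ^ 5 ∣ z - y ^ 2 := by
    apply pow_dvd hI
    have e : ev I hI (z - y ^ 2) = (s - ev I hI y) * (s + ev I hI y) := by
      rw [map_sub, map_pow, ← hs]
      ring
    rw [e, norm_mul, show (5 : ℕ) = 3 + 2 from rfl, pow_add]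
    exact mul_le_mul hn1 hn2 (norm_nonneg _) (by positivity)
  have hy2 : ¬ lam ∣ y := by
    intro h
    apply hz
    have h1 : lam ∣ z - y ^ 2 := (dvd_pow_self lam (by norm_num : (5 : ℕ) ≠ 0)).trans hdvd
    have h2 : lam ∣ y ^ 2 := h.trans (dvd_pow_self y two_ne_zero)
    have h3 := dvd_add h1 h2
    rwa [sub_add_cancel] at h3
  rcases sq_mod hy2 with h | h
  · left
    have h3 := dvd_add hdvd h
    rwa [show z - y ^ 2 + (y ^ 2 - 1) = z - 1 by ring] at h3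
  · right
    have h3 := dvd_add hdvd h
    rwa [show z - y ^ 2 + (y ^ 2 + 1) = z + 1 by ring] at h3

omit hI in
theorem t_LSQ : Pool.Agent.L0h86.GQ.S_LSQ := fun _ hI _ _ hs hfix hz => lsq hI hs hfix hz

end Pool.Agent.L0h68.GQ
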