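import Pool.Agent.L0h86.GQ.Stm

/-!
# Project GQ, module ODD: local squares at the odd primes
-/

set_option autoImplicit false
set_option linter.all false

namespace Pool.Agent.L0h68.GQ

open Pool.Agent.Y715.Nr (Au)
open Pool.Agent.Y715.Gi (QB KK GK ev)
open Pool.Agent.Y715.Sel (iota_sq iota_ev)
open Pool.Agent.R384 (DD fix_D)

theorem t_ODD : Pool.Agent.L0h86.GQ.S_ODD := by
  intro i₀ hi ρ z hρ p _ ι hp hl t ht hfix
  rw [iota_ev hi] at hl
  exact Pool.Agent.Y715.Lc.resid (iota_sq hi ι) hp hρ hl (y := ι t)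
    (by rw [← map_pow, ht, iota_ev hi]) (fun τ hτ => fix_D hfix τ hτ)

end Pool.Agent.L0h68.GQ
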